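import Pool.Agent.Mg.F655169.Gfe3d60

open scoped IntermediateField

namespace Pool.Agent.Results.MP_ee2255_nt.CarlitzSchanuelFull

open Pool.Agent.MP_655169_nt

theorem result {F E : Type*} [Field F] [Fintype F] [NormedField E] [IsUltrametricDist E]
    [CompleteSpace E] [Algebra F E] (θ : E) (hθ : 1 < ‖θ‖) (n : ℕ) (x : Fin n → E)
    (hx : LinearIndependent F⟮θ⟯ x) :
    (n : Cardinal) ≤ Algebra.trdeg F⟮θ⟯ (IntermediateField.adjoin F⟮θ⟯
      (Set.range x ∪ Set.range fun i => carlitzExp (Fintype.card F) θ (x i))) :=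
  Pool.Agent.MP_ee2255_nt.T.main θ hθ n x hx

end Pool.Agent.Results.MP_ee2255_nt.CarlitzSchanuelFull
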